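import Pool.Agent.H47.UG.Symb
import Pool.Agent.H57.UGB.Defs

/-!
# Jet differentials: weight and orders of the variables
-/

set_option autoImplicit false

open MvPolynomial

namespace Pool.Agent.H51.UG

open Pool.Agent.H47.UG

variable {K : Type} [Field K] {n d : ℕ} {F : HP K n} (T : FF d F)

/-- the polynomials in the variables of order `≤ a` -/
noncomputable def Sp (a : ℕ) : Subalgebra T.L T.BB := supported T.L {p : ℕ × Fin n | p.1 < a}

theorem Sp_mono {a b : ℕ} (h : a ≤ b) : Sp T a ≤ Sp T b :=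
  supported_mono fun _ hp => lt_of_lt_of_le hp h

theorem C_mem_Sp (a : ℕ) (u : T.L) : (C u : T.BB) ∈ Sp T a := (Sp T a).algebraMap_mem u

theorem D_mem_Sp {a : ℕ} {P : T.BB} (hP : P ∈ Sp T a) : T.D P ∈ Sp T (a + 1) := by
  have h1 : Sp T a ≤ Sp T (a + 1) := Sp_mono T (Nat.le_succ a)
  rw [Sp, supported_eq_adjoin_X] at hP
  induction hP using Algebra.adjoin_induction with
  | mem x hx =>
    obtain ⟨⟨s, l⟩, hs, rfl⟩ := hx
    rw [T.D_X]
    have h2 : s + 1 < a + 1 := Nat.succ_lt_succ hs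
    exact X_mem_supported.mpr h2
  | algebraMap r =>
    change T.D (C r) ∈ _
    rw [T.D_C]
    exact sum_mem fun l _ => mul_mem (C_mem_Sp T _ _) (X_mem_supported.mpr (Nat.succ_pos a))
  | add x y _ _ hx hy =>
    rw [map_add]
    exact add_mem hx hy
  | mul x y hx' hy' hx hy =>
    rw [Derivation.leibniz, smul_eq_mul, smul_eq_mul]
    have hx2 : x ∈ Sp T a := by rw [Sp, supported_eq_adjoin_X]; exact hx'
    have hy2 : y ∈ Sp T a := by rw [Sp, supported_eq_adjoin_X]; exact hy'
    exact add_mem (mul_mem (h1 hx2) hy) (mul_mem (h1 hy2) hx)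

theorem D_iter_mem_Sp (s : ℕ) (v : T.L) : (T.D : T.BB → T.BB)^[s] (C v) ∈ Sp T s := by
  induction s with
  | zero => exact C_mem_Sp T _ _
  | succ s ih =>
    rw [Function.iterate_succ_apply']
    exact D_mem_Sp T ih

/-- Jet differentials of order `k` and weight `m` contain only variables of order `≤ k` and have weight `m`. -/
theorem ee_supp (k : ℕ) (e : ℤ) (m : ℕ) (i : Fin (n + 2)) (σ : T.BB) (hσ : σ ∈ T.EE k e m i) :
    (∀ v ∈ σ.vars, v.1 < k) ∧ IsWeightedHomogeneous (FF.w (n := n)) σ m := by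
  have key : σ ∈ Sp T k ∧ IsWeightedHomogeneous (FF.w (n := n)) σ m := by
    unfold FF.EE at hσ
    induction hσ using Submodule.span_induction with
    | mem x hx =>
      obtain ⟨a, _, q, s, l, hs, rfl⟩ := hx
      refine ⟨mul_mem (C_mem_Sp T _ _) (prod_mem fun r _ => ?_), ?_⟩
      · exact Sp_mono T (Nat.succ_le_of_lt (s r).isLt) (D_iter_mem_Sp T _ _)
      · have h := (isWeightedHomogeneous_C (FF.w (n := n)) (T.x i ^ e * a)).mul
          (IsWeightedHomogeneous.prod Finset.univ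
            (fun r => (T.D : T.BB → T.BB)^[(s r : ℕ) + 1] (C (T.x (l r) / T.x i))) (fun r => (s r : ℕ) + 1)
            fun r _ => FF.D_iter_weight T (s r : ℕ) (T.x (l r) / T.x i))
        rw [zero_add, hs] at h
        exact h
    | zero => exact ⟨zero_mem _, isWeightedHomogeneous_zero _ _ _⟩
    | add x y _ _ hx hy => exact ⟨add_mem hx.1 hy.1, hx.2.add hy.2⟩
    | smul c x _ hx =>
      have h1 : c • x = C (algebraMap K T.L c) * x := by
        rw [← smul_eq_C_mul, algebraMap_smul]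
      rw [h1]
      refine ⟨mul_mem (C_mem_Sp T _ _) hx.1, ?_⟩
      have h := (isWeightedHomogeneous_C (FF.w (n := n)) (algebraMap K T.L c)).mul hx.2
      rw [zero_add] at h
      exact h
  refine ⟨fun v hv => ?_, key.2⟩
  have h2 := mem_supported.mp key.1
  exact h2 (Finset.mem_coe.mpr hv)

end Pool.Agent.H51.UG

namespace Pool.Agent.H57.UGB

open Pool.Agent.H47.UG

section ff

variable {n d : ℕ} (T : FF d (genK n d)) (k : ℕ)

theorem ee_supp (e : ℤ) (m : ℕ) (i : Fin (n + 2)) (σ : T.BB) (hσ : σ ∈ T.EE k e m i) :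
    (∀ v ∈ σ.vars, v.1 < k) ∧ IsWeightedHomogeneous (FF.w (n := n)) σ m :=
  Pool.Agent.H51.UG.ee_supp T k e m i σ hσ

end ff

end Pool.Agent.H57.UGB
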